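import Pool.Agent.TH121.KT.Final

/-!
# The main theorem
-/

set_option autoImplicit false
set_option linter.unusedSectionVars false

namespace Pool.Agent.TH121.KT

open NumberField Polynomial Module

noncomputable section

variable {r : ℕ} {K : Fin r → Type} [∀ i, Field (K i)] [∀ i, NumberField (K i)]
  [∀ i, IsCMField (K i)]
variable {p : ℕ} [Fact p.Prime] {ι : Qb →+* PadicAlgCl p} {α : ∀ i, K i}

variable {κ Ω M : Type} [Fintype κ] [DecidableEq κ] [Field Ω] [CharZero Ω] [IsAlgClosed Ω]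
  {V : κ → Type} [∀ k, AddCommGroup (V k)] [∀ k, Module Ω (V k)] [AddCommGroup M] [Module Ω M]
  [FiniteDimensional Ω M]

theorem isProduct_of_eigen (e : Fin r → ℕ)
    (he : ∀ i, 0 < e i) (c : κ → Fin r) (F : ∀ k, V k →ₗ[Ω] V k) (G : M →ₗ[Ω] M)
    {Q : ℚ[X]} (hQ : Q ≠ 0)
    (hG : ∀ β : Ω, Module.End.HasEigenvalue G β → ∃ N : ℕ, 0 < N ∧ aeval (β ^ N) Q = 0)
    {L : IntermediateField ℚ Qb} (hL : SlopesFixed p ι L Q)
    {S : Fin r → IntermediateField ℚ Qb} (hS : ∀ i, IsSlopeField p ι (S i) (α i))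
    (hind : ∀ i, IsIndependent p ι (α i) (tower S L i)
      (Finset.univ.filter fun k => c k = i).card)
    (l : ∀ k, V k →ₗ[Ω] Ω) (μ : κ → Ω) (y : M) (s : ℕ)
    (hl : ∀ k x, l k (F k x) = μ k * l k x)
    (hμ : ∀ k, (∃ N : ℕ, 0 < N ∧ μ k ^ N = 1) ∨
      ∃ (σ : K (c k) →+* Ω) (N : ℕ), 0 < N ∧ μ k ^ (e (c k) * N) = σ (α (c k)) ^ N)
    (hy : y ≠ 0) (hs : 0 < s) (hGy : (G ^ s) y = (∏ k, μ k) ^ s • y) :
    IsProduct c F G (prodM l y) := by
  classical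
  obtain ⟨β, hβ, hβs⟩ := exists_eigenvalue hs hy hGy
  obtain ⟨M₀, hM₀, hβQ⟩ := hG β hβ
  obtain ⟨P, hP⟩ := letters e he c hQ hL hS hind μ hμ hM₀ hβQ hs hβs
  refine ⟨P, fun B => prodB l B, y, ?_, ?_, ?_⟩
  · intro B hB
    obtain ⟨⟨h1, h2⟩, t, ht, h3⟩ := hP B hB
    refine ⟨h1, h2, t, ht, fun v => ?_⟩
    rw [prodB_apply, prodB_apply]
    rw [Finset.prod_congr rfl fun k _ => eigenform_pow (hl k.1) t (v k), Finset.prod_mul_distrib,
      Finset.prod_pow, h3, one_mul]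
  · obtain ⟨t, ht, h1⟩ := prod_torsion P fun B hB => (hP B hB).2
    refine ⟨s * t, Nat.mul_pos hs ht, ?_⟩
    rw [pow_mul, eigenvector_pow hGy, ← pow_mul, mul_comm s t, pow_mul, h1, one_pow, one_smul]
  · intro v
    rw [prodM_apply, prod_block P (fun k => l k (v k)),
      Finset.prod_congr rfl fun B _ => (prodB_apply l B (fun k => v k)).symm]

/-- **Main theorem.** -/
theorem tate_generated [∀ k, FiniteDimensional Ω (V k)] (e : Fin r → ℕ)
    (he : ∀ i, 0 < e i) (c : κ → Fin r) (F : ∀ k, V k →ₗ[Ω] V k)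
    (hF : ∀ k, HasEigenvalues (e (c k)) (α (c k)) (F k)) (G : M →ₗ[Ω] M)
    {Q : ℚ[X]} (hQ : Q ≠ 0)
    (hG : ∀ β : Ω, Module.End.HasEigenvalue G β → ∃ N : ℕ, 0 < N ∧ aeval (β ^ N) Q = 0)
    {L : IntermediateField ℚ Qb} (hL : SlopesFixed p ι L Q)
    {S : Fin r → IntermediateField ℚ Qb} (hS : ∀ i, IsSlopeField p ι (S i) (α i))
    (hind : ∀ i, IsIndependent p ι (α i) (tower S L i)
      (Finset.univ.filter fun k => c k = i).card)
    (f : MultilinearMap Ω V M) (hf : IsTateMap F G f) :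
    f ∈ Submodule.span Ω {ψ | IsProduct c F G ψ} := by
  refine Submodule.span_mono ?_ (expand F G (fun k μ => (∃ N : ℕ, 0 < N ∧ μ ^ N = 1) ∨
    ∃ (σ : K (c k) →+* Ω) (N : ℕ), 0 < N ∧ μ ^ (e (c k) * N) = σ (α (c k)) ^ N)
    (fun k => hF k) f hf)
  rintro ψ ⟨l, μ, y, s, h1, h2, h3, h4, h5, rfl⟩
  exact isProduct_of_eigen e he c F G hQ hG hL hS hind l μ y s h1 h2 h3 h4 h5

end

end Pool.Agent.TH121.KT
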