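import Pool.Agent.TH121.KT.Defs

/-!
# Expansion of multilinear Tate maps in products of eigenforms
-/

set_option autoImplicit false
set_option linter.unusedSectionVars false

namespace Pool.Agent.TH121.KT

open Module

noncomputable section

variable {κ Ω M : Type} [Fintype κ] [DecidableEq κ] {V : κ → Type} [Field Ω]
  [∀ k, AddCommGroup (V k)] [∀ k, Module Ω (V k)] [AddCommGroup M] [Module Ω M]

/-- a product of linear forms in separate variables and of a vector -/
def prodM (l : ∀ k, V k →ₗ[Ω] Ω) (y : M) : MultilinearMap Ω V M :=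
  ((MultilinearMap.mkPiAlgebra Ω κ Ω).compLinearMap l).smulRight y

theorem prodM_apply (l : ∀ k, V k →ₗ[Ω] Ω) (y : M) (v : ∀ k, V k) :
    prodM l y v = (∏ k, l k (v k)) • y := by
  simp [prodM]

/-- a product of linear forms over a set of variables -/
def prodB (l : ∀ k, V k →ₗ[Ω] Ω) (B : Finset κ) : MultilinearMap Ω (fun k : B => V k) Ω :=
  (MultilinearMap.mkPiAlgebra Ω B Ω).compLinearMap (fun k => l k)

theorem prodB_apply (l : ∀ k, V k →ₗ[Ω] Ω) (B : Finset κ) (v : ∀ k : B, V k) :
    prodB l B v = ∏ k : B, l k (v k) := by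
  simp [prodB]

theorem eigenform_pow {W : Type} [AddCommGroup W] [Module Ω W] {F : W →ₗ[Ω] W} {l : W →ₗ[Ω] Ω}
    {μ : Ω} (h : ∀ x, l (F x) = μ * l x) (s : ℕ) (x : W) : l ((F ^ s) x) = μ ^ s * l x := by
  induction s generalizing x with
  | zero => simp
  | succ s ih =>
    rw [pow_succ, Module.End.mul_apply, ih, h, pow_succ]
    ring

theorem eigenvector_pow {W : Type} [AddCommGroup W] [Module Ω W] {F : W →ₗ[Ω] W} {x : W}
    {μ : Ω} (h : F x = μ • x) (s : ℕ) : (F ^ s) x = μ ^ s • x := by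
  induction s with
  | zero => simp
  | succ s ih => rw [pow_succ', Module.End.mul_apply, ih, map_smul, h, smul_smul, pow_succ]

theorem expand [∀ k, FiniteDimensional Ω (V k)] (F : ∀ k, V k →ₗ[Ω] V k) (G : M →ₗ[Ω] M)
    (Q : ∀ _ : κ, Ω → Prop)
    (hF : ∀ k, Submodule.span Ω {x : V k | ∃ μ : Ω, F k x = μ • x ∧ Q k μ} = ⊤)
    (f : MultilinearMap Ω V M) (hf : IsTateMap F G f) :
    f ∈ Submodule.span Ω {ψ | ∃ (l : ∀ k, V k →ₗ[Ω] Ω) (μ : κ → Ω) (y : M) (s : ℕ),
      (∀ k x, l k (F k x) = μ k * l k x) ∧ (∀ k, Q k (μ k)) ∧ y ≠ 0 ∧ 0 < s ∧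
      (G ^ s) y = (∏ k, μ k) ^ s • y ∧ ψ = prodM l y} := by
  classical
  obtain ⟨s, hs, hfs⟩ := hf
  let b := fun k => Basis.ofSpan (K := Ω) (V := V k) (le_of_eq (hF k).symm)
  have hb : ∀ k j, ∃ μ : Ω, F k (b k j) = μ • b k j ∧ Q k μ := by
    intro k j
    have h1 : b k j ∈ {x : V k | ∃ μ : Ω, F k x = μ • x ∧ Q k μ} :=
      Basis.ofSpan_subset (le_of_eq (hF k).symm) ⟨j, rfl⟩
    exact h1
  choose μ hμ hQ using hb
  have hfin := fun k => Module.Finite.finite_basis (b k)
  have hft := fun k => Fintype.ofFinite ((linearIndepOn_empty Ω id).extend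
    (Set.empty_subset {x : V k | ∃ μ : Ω, F k x = μ • x ∧ Q k μ}))
  have hcoord : ∀ k j x, (b k).coord j (F k x) = μ k j * (b k).coord j x := by
    intro k j x
    have h1 : ((b k).coord j).comp (F k) = μ k j • (b k).coord j := by
      refine (b k).ext fun i => ?_
      rw [LinearMap.comp_apply, hμ, map_smul, LinearMap.smul_apply, Basis.coord_apply,
        Basis.repr_self]
      by_cases hjk : i = j
      · subst hjk
        rfl
      · rw [Finsupp.single_eq_of_ne (Ne.symm hjk), smul_zero, smul_zero]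
    exact LinearMap.congr_fun h1 x
  have hexp : f = ∑ t : (∀ k, _), prodM (fun k => (b k).coord (t k)) (f (fun k => b k (t k))) := by
    refine Basis.ext_multilinear b fun v => ?_
    rw [MultilinearMap.sum_apply]
    rw [Finset.sum_eq_single v]
    · rw [prodM_apply]
      have h1 : ∀ k, (b k).coord (v k) (b k (v k)) = 1 := by
        intro k
        rw [Basis.coord_apply, Basis.repr_self, Finsupp.single_eq_same]
      rw [Finset.prod_congr rfl fun k _ => h1 k, Finset.prod_const_one, one_smul]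
    · intro t _ ht
      rw [prodM_apply]
      obtain ⟨k, hk⟩ := Function.ne_iff.1 ht
      rw [Finset.prod_eq_zero (Finset.mem_univ k), zero_smul]
      rw [Basis.coord_apply, Basis.repr_self, Finsupp.single_eq_of_ne hk]
    · intro h
      exact absurd (Finset.mem_univ v) h
  rw [hexp]
  refine Submodule.sum_mem _ fun t _ => ?_
  by_cases h0 : f (fun k => b k (t k)) = 0
  · have h1 : prodM (fun k => (b k).coord (t k)) (f (fun k => b k (t k))) = 0 := by
      ext v
      rw [prodM_apply, h0, smul_zero, MultilinearMap.zero_apply]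
    rw [h1]
    exact Submodule.zero_mem _
  · refine Submodule.subset_span ⟨fun k => (b k).coord (t k), fun k => μ k (t k), _, s,
      fun k x => hcoord _ _ _, fun k => hQ _ _, h0, hs, ?_, rfl⟩
    have h1 := hfs (fun k => b k (t k))
    have h2 : ∀ k, (F k ^ s) (b k (t k)) = μ k (t k) ^ s • b k (t k) :=
      fun k => eigenvector_pow (hμ k (t k)) s
    simp only [h2] at h1
    rw [MultilinearMap.map_smul_univ] at h1
    rw [← h1, Finset.prod_pow]

/-- an eigenvalue of a power is a power of an eigenvalue -/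
theorem exists_eigenvalue [IsAlgClosed Ω] [FiniteDimensional Ω M] {G : M →ₗ[Ω] M} {s : ℕ}
    (hs : 0 < s) {y : M} (hy : y ≠ 0) {ν : Ω} (h : (G ^ s) y = ν • y) :
    ∃ β : Ω, Module.End.HasEigenvalue G β ∧ β ^ s = ν := by
  have h1 : Module.End.HasEigenvalue (G ^ s : Module.End Ω M) ν :=
    Module.End.hasEigenvalue_of_hasEigenvector ⟨Module.End.mem_eigenspace_iff.2 h, hy⟩
  rw [Module.End.hasEigenvalue_iff_mem_spectrum, spectrum.map_pow_of_pos _ hs] at h1
  obtain ⟨β, hβ, hβs⟩ := h1
  exact ⟨β, Module.End.hasEigenvalue_iff_mem_spectrum.2 hβ, hβs⟩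

end

end Pool.Agent.TH121.KT
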