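import Pool.Agent.TH121.KT.Rel
import Pool.Agent.TH121.KT.Expand
import Pool.Agent.W517.K3.Part

/-!
# Tate maps are generated by pairings and Tate vectors
-/

set_option autoImplicit false
set_option linter.unusedSectionVars false

namespace Pool.Agent.TH121.KT

open NumberField Polynomial Module

noncomputable section

/-- products over a block -/
theorem prod_block {κ Ω : Type} [Fintype κ] [DecidableEq κ] [Field Ω]
    (P : Finpartition (Finset.univ : Finset κ))
    (f : κ → Ω) : ∏ i, f i = ∏ B ∈ P.parts, ∏ i : B, f i := by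
  have h1 : ∏ i, f i = ∏ i ∈ P.parts.biUnion id, f i := by rw [P.biUnion_parts]
  rw [h1, Finset.prod_biUnion]
  · refine Finset.prod_congr rfl fun B _ => ?_
    exact (Finset.prod_coe_sort B f).symm
  · intro B hB B' hB' hne
    exact P.disjoint hB hB' hne

/-- every embedding in `Ω` factors through the algebraic numbers -/
theorem exists_lift {K : Type} {Ω : Type*} [Field K] [NumberField K] [Field Ω] [CharZero Ω] [IsAlgClosed Ω]
    (τ : Qb →+* Ω) (σ : K →+* Ω) : ∃ ρ : K →+* Qb, τ.comp ρ = σ := by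
  have h1 : Function.Bijective (fun ρ : K →+* Qb => τ.comp ρ) := by
    rw [Fintype.bijective_iff_injective_and_card]
    constructor
    · intro ρ ρ' h
      ext x
      exact τ.injective (RingHom.congr_fun h x)
    · rw [Embeddings.card, Embeddings.card]
  exact h1.2 σ

/-- every root in `Ω` of a rational polynomial is an algebraic number -/
theorem exists_root {Ω : Type*} [Field Ω] [CharZero Ω] (τ : Qb →+* Ω) {Q : ℚ[X]} (hQ : Q ≠ 0)
    {γ : Ω} (hγ : aeval γ Q = 0) : ∃ γ' : Qb, aeval γ' Q = 0 ∧ τ γ' = γ := by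
  have h0 : Q.map (algebraMap ℚ Qb) ≠ 0 := (Polynomial.map_ne_zero_iff (algebraMap ℚ Qb).injective).2 hQ
  have h1 := (IsAlgClosed.splits (Q.map (algebraMap ℚ Qb))).eq_prod_roots
  have h2 : (Q.map (algebraMap ℚ Qb)).eval₂ τ γ = 0 := by
    rw [Polynomial.eval₂_map, ← hγ, Polynomial.aeval_def]
    congr 1
    exact Subsingleton.elim _ _
  rw [h1, Polynomial.eval₂_mul, Polynomial.eval₂_C, Polynomial.eval₂_multiset_prod] at h2
  rcases mul_eq_zero.1 h2 with h3 | h3
  · exact absurd (Polynomial.leadingCoeff_eq_zero.1 ((map_eq_zero τ).1 h3)) h0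
  · rw [Multiset.prod_eq_zero_iff, Multiset.mem_map] at h3
    obtain ⟨q, hq, hq0⟩ := h3
    obtain ⟨γ', hγ', rfl⟩ := Multiset.mem_map.1 hq
    refine ⟨γ', ?_, ?_⟩
    · have h4 := (Polynomial.mem_roots h0).1 hγ'
      rw [Polynomial.IsRoot, Polynomial.eval_map] at h4
      rwa [Polynomial.aeval_def]
    · rw [Polynomial.eval₂_sub, Polynomial.eval₂_X, Polynomial.eval₂_C, sub_eq_zero] at hq0
      exact hq0.symm

variable {r : ℕ} {K : Fin r → Type} [∀ i, Field (K i)] [∀ i, NumberField (K i)]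
  [∀ i, IsCMField (K i)]
variable {p : ℕ} [Fact p.Prime] {ι : Qb →+* PadicAlgCl p} {α : ∀ i, K i}

variable {κ Ω M : Type} [Fintype κ] [DecidableEq κ] [Field Ω] [CharZero Ω] [IsAlgClosed Ω]

/-- the number of indices with a given label -/
def count (c : κ → Fin r) (ρ : ∀ k, Option (K (c k) →+* Qb)) (x : Σ i, (K i →+* Qb)) : ℕ :=
  open Classical in
  (Finset.univ.filter fun k => (ρ k).map (fun σ => (⟨c k, σ⟩ : Σ i, (K i →+* Qb))) = some x).card

/-- **Balanced labels.** The arithmetic part in terms of labels. -/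
theorem count_balanced (c : κ → Fin r)
    (ρ : ∀ k, Option (K (c k) →+* Qb))
    {w : Fin r → ℕ} {W : ℕ} {β : Qb}
    (hrel : ∏ k, ((ρ k).elim 1 (fun σ => σ (α (c k)) ^ w (c k))) = β ^ W)
    (hw : ∀ i, 0 < w i) {L : IntermediateField ℚ Qb} {Q : ℚ[X]}
    (hL : SlopesFixed p ι L Q) (hβ : aeval β Q = 0) {S : Fin r → IntermediateField ℚ Qb}
    (hS : ∀ i, IsSlopeField p ι (S i) (α i))
    (hind : ∀ i, IsIndependent p ι (α i) (tower S L i)
      (Finset.univ.filter fun k => c k = i).card)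
    (x : Σ i, (K i →+* Qb)) : count c ρ x = count c ρ (bar x) := by
  classical
  have hcount : ∀ x, count c ρ x = (Finset.univ.filter fun k =>
      (ρ k).map (fun σ => (⟨c k, σ⟩ : Σ i, (K i →+* Qb))) = some x).card := by
    intro x
    unfold count
    congr
  refine balanced (N := count c ρ) (w := w) (W := W) (β := β) ?_ hw hL hβ hS hind ?_ x
  · rw [← hrel]
    have h1 : ∀ x : Σ i, (K i →+* Qb), (x.2 (α x.1)) ^ (w x.1 * count c ρ x) =
        ∏ k, (if (ρ k).map (fun σ => (⟨c k, σ⟩ : Σ i, (K i →+* Qb))) = some x then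
          x.2 (α x.1) ^ w x.1 else 1) := by
      intro x
      rw [Finset.prod_ite, Finset.prod_const_one, mul_one, Finset.prod_const, ← pow_mul, hcount]
    rw [Finset.prod_congr rfl fun x _ => h1 x, Finset.prod_comm]
    refine Finset.prod_congr rfl fun k _ => ?_
    rcases h : ρ k with _ | σ
    · simp
    · simp only [Option.map_some, Option.some.injEq, Option.elim_some]
      rw [Finset.prod_ite_eq Finset.univ, if_pos (Finset.mem_univ _)]
  · intro i
    have h1 : ∑ σ : K i →+* Qb, count c ρ ⟨i, σ⟩ =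
        (Finset.univ.biUnion (fun σ : K i →+* Qb => Finset.univ.filter fun k =>
          (ρ k).map (fun σ => (⟨c k, σ⟩ : Σ i, (K i →+* Qb))) = some ⟨i, σ⟩)).card := by
      rw [Finset.card_biUnion]
      · exact Finset.sum_congr rfl fun σ _ => hcount _
      · intro σ _ σ' _ hne
        rw [Function.onFun, Finset.disjoint_left]
        intro k hk hk'
        rw [Finset.mem_filter] at hk hk'
        have h2 := hk.2.symm.trans hk'.2
        simp only [Option.some.injEq, Sigma.mk.injEq, heq_eq_eq, true_and] at h2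
        exact hne h2
    rw [h1]
    refine Finset.card_le_card ?_
    intro k hk
    rw [Finset.mem_biUnion] at hk
    obtain ⟨σ, _, hk⟩ := hk
    rw [Finset.mem_filter] at hk ⊢
    refine ⟨Finset.mem_univ _, ?_⟩
    rcases h : ρ k with _ | τ
    · rw [h] at hk
      simp at hk
    · rw [h] at hk
      simp only [Option.map_some, Option.some.injEq, Sigma.mk.injEq] at hk
      exact hk.2.1

/-- **Letters.** If a product of eigenvalues of the blocks is, up to a root of unity, an
eigenvalue of the additional factor, then the letters can be arranged in singles and pairs with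
product a root of unity. -/
theorem letters (e : Fin r → ℕ) (he : ∀ i, 0 < e i) (c : κ → Fin r)
    {Q : ℚ[X]} (hQ : Q ≠ 0) {L : IntermediateField ℚ Qb} (hL : SlopesFixed p ι L Q)
    {S : Fin r → IntermediateField ℚ Qb} (hS : ∀ i, IsSlopeField p ι (S i) (α i))
    (hind : ∀ i, IsIndependent p ι (α i) (tower S L i)
      (Finset.univ.filter fun k => c k = i).card) (μ : κ → Ω)
    (hμ : ∀ k, (∃ N : ℕ, 0 < N ∧ μ k ^ N = 1) ∨
      ∃ (σ : K (c k) →+* Ω) (N : ℕ), 0 < N ∧ μ k ^ (e (c k) * N) = σ (α (c k)) ^ N)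
    {β : Ω} {M₀ s : ℕ} (hM₀ : 0 < M₀) (hβQ : aeval (β ^ M₀) Q = 0) (hs : 0 < s)
    (hβs : β ^ s = (∏ k, μ k) ^ s) :
    ∃ P : Finpartition (Finset.univ : Finset κ), ∀ B ∈ P.parts,
      (B.card ≤ 2 ∧ (∀ k ∈ B, ∀ k' ∈ B, c k = c k')) ∧
      ∃ t : ℕ, 0 < t ∧ (∏ k : B, μ k) ^ t = 1 := by
  classical
  let τ : Qb →+* Ω := (IsAlgClosed.lift : Qb →ₐ[ℚ] Ω).toRingHom
  -- labels
  have hlab : ∀ k, ∃ (ρ : Option (K (c k) →+* Qb)) (N : ℕ), 0 < N ∧
      μ k ^ (e (c k) * N) = τ (ρ.elim 1 (fun σ => σ (α (c k)))) ^ N := by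
    intro k
    rcases hμ k with ⟨N, hN, h⟩ | ⟨σ, N, hN, h⟩
    · refine ⟨none, N, hN, ?_⟩
      rw [Option.elim_none, map_one, one_pow, mul_comm, pow_mul, h, one_pow]
    · obtain ⟨ρ, hρ⟩ := exists_lift τ σ
      refine ⟨some ρ, N, hN, ?_⟩
      rw [Option.elim_some, h, ← hρ]
      rfl
  choose ρ N hN hρ using hlab
  -- the relation
  obtain ⟨γ, hγQ, hγ⟩ := exists_root τ hQ hβQ
  let T : ℕ := (∏ i, e i) * ∏ k, N k
  have hE : 0 < ∏ i, e i := Finset.prod_pos fun i _ => he i
  have hNN : 0 < ∏ k, N k := Finset.prod_pos fun k _ => hN k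
  let w : Fin r → ℕ := fun i => s * M₀ * ((∏ j ∈ Finset.univ.erase i, e j) * ∏ k, N k)
  have hw : ∀ i, 0 < w i := fun i => Nat.mul_pos (Nat.mul_pos hs hM₀)
    (Nat.mul_pos (Finset.prod_pos fun j _ => he j) hNN)
  have hT : ∀ k, μ k ^ (s * M₀ * T) = τ ((ρ k).elim 1 (fun σ => σ (α (c k)) ^ w (c k))) := by
    intro k
    have h1 : s * M₀ * T = e (c k) * N k * (s * M₀ * ((∏ j ∈ Finset.univ.erase (c k), e j) *
        ∏ k' ∈ Finset.univ.erase k, N k')) := by
      change s * M₀ * ((∏ i, e i) * ∏ k, N k) = _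
      rw [← Finset.mul_prod_erase Finset.univ e (Finset.mem_univ (c k)),
        ← Finset.mul_prod_erase Finset.univ N (Finset.mem_univ k)]
      ring
    have h2 : w (c k) = N k * (s * M₀ * ((∏ j ∈ Finset.univ.erase (c k), e j) *
        ∏ k' ∈ Finset.univ.erase k, N k')) := by
      change s * M₀ * ((∏ j ∈ Finset.univ.erase (c k), e j) * ∏ k, N k) = _
      rw [← Finset.mul_prod_erase Finset.univ N (Finset.mem_univ k)]
      ring
    rw [h1, pow_mul, hρ k, ← pow_mul, ← h2]
    rcases ρ k with _ | σ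
    · simp
    · simp only [Option.elim_some, map_pow]
  have hrel : ∏ k, ((ρ k).elim 1 (fun σ => σ (α (c k)) ^ w (c k))) = γ ^ (s * T) := by
    apply τ.injective
    rw [map_prod, ← Finset.prod_congr rfl fun k _ => hT k, Finset.prod_pow, map_pow, hγ,
      ← pow_mul, show s * M₀ * T = s * (M₀ * T) by ring, pow_mul, ← hβs, ← pow_mul]
    congr 1
    ring
  have hbal := count_balanced c ρ hrel hw hL hγQ hS hind
  -- the partition
  let φ : κ → Option (Σ i, (K i →+* Qb)) := fun k =>
    (ρ k).map (fun σ => (⟨c k, σ⟩ : Σ i, (K i →+* Qb)))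
  have hex : ∀ x, Pool.Agent.W517.K3.excess bar φ (Finset.univ : Finset κ) x = 0 := by
    intro x
    have h1 := hbal x
    unfold Pool.Agent.W517.K3.excess
    have h2 : ∀ x, (Finset.univ.filter fun k => φ k = some x).card = count c ρ x := by
      intro x
      unfold count
      congr
    rw [h2, h2, h1, sub_self]
  have hbne : ∀ x : Σ i, (K i →+* Qb), bar x ≠ x := by
    rintro ⟨i, σ⟩ h
    have h1 : cj σ = σ := by
      have := Sigma.mk.inj_iff.1 h
      exact eq_of_heq this.2
    have h2 : ∀ x : K i, IsCMField.complexConj (K i) x = x := by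
      intro x
      exact σ.injective (RingHom.congr_fun h1 x)
    exact IsCMField.complexConj_ne_one (K i) (AlgEquiv.ext h2)
  obtain ⟨P, hP⟩ := Pool.Agent.W517.K3.exists_partition bar bar_bar hbne
    (fun x y => x = y) ⟨fun x => rfl, fun h => h.symm, fun h h' => h.trans h'⟩
    (fun x y h => by rw [h]) φ _ (Finset.univ : Finset κ) rfl (fun x y h => by rw [h])
  refine ⟨P, fun B hB => ?_⟩
  rcases hP B hB with ⟨k, rfl, hk⟩ | ⟨k, k', x, hkk, rfl, hk, hk'⟩ | ⟨x, hx, -⟩
  · refine ⟨⟨by simp, ?_⟩, ?_⟩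
    · intro j hj j' hj'
      rw [Finset.mem_singleton.1 hj, Finset.mem_singleton.1 hj']
    · refine ⟨e (c k) * N k, Nat.mul_pos (he _) (hN k), ?_⟩
      have h0 : ρ k = none := by
        rcases h : ρ k with _ | σ
        · rfl
        · simp [φ, h] at hk
      have h1 : (∏ j : ({k} : Finset κ), μ j) = μ k := by
        rw [Finset.prod_coe_sort ({k} : Finset κ) μ, Finset.prod_singleton]
      rw [h1, hρ k, h0, Option.elim_none, map_one, one_pow]
  · obtain ⟨i, σ⟩ := x
    have h1 : ∀ (j : κ) (i : Fin r) (σ : K i →+* Qb), φ j = some ⟨i, σ⟩ →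
        c j = i ∧ μ j ^ (e i * N j) = τ (σ (α i)) ^ N j := by
      intro j i σ hj
      have h2 := hρ j
      rcases h : ρ j with _ | σ'
      · simp [φ, h] at hj
      · have h3 : (⟨c j, σ'⟩ : Σ i, (K i →+* Qb)) = ⟨i, σ⟩ := by
          simpa [φ, h] using hj
        rw [h, Option.elim_some] at h2
        have h4 : c j = i := congrArg Sigma.fst h3
        subst h4
        have h5 : σ' = σ := eq_of_heq (Sigma.mk.inj_iff.1 h3).2
        rw [← h5]
        exact ⟨rfl, h2⟩
    obtain ⟨hc, hv⟩ := h1 k i σ hk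
    obtain ⟨hc', hv'⟩ := h1 k' i (cj σ) hk'
    refine ⟨⟨?_, ?_⟩, ?_⟩
    · rw [Finset.card_pair hkk]
    · intro j hj j' hj'
      have h2 : ∀ j ∈ ({k, k'} : Finset κ), c j = i := by
        intro j hj
        rcases Finset.mem_insert.1 hj with rfl | hj
        · exact hc
        · rw [Finset.mem_singleton.1 hj]
          exact hc'
      rw [h2 j hj, h2 j' hj']
    · refine ⟨e i * N k * N k', Nat.mul_pos (Nat.mul_pos (he i) (hN k)) (hN k'), ?_⟩
      rw [Finset.prod_coe_sort ({k, k'} : Finset κ) μ, Finset.prod_pair hkk, mul_pow,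
        pow_mul, hv, show e i * N k * N k' = e i * N k' * N k by ring, pow_mul (μ k'), hv',
        ← pow_mul, ← pow_mul, mul_comm (N k') (N k), ← mul_pow, ← map_mul,
        cj_val (hind i).unitary, mul_inv_cancel₀, map_one, one_pow]
      rw [ne_eq, map_eq_zero]
      exact alpha_ne (hind i).unitary
  · exact absurd (hex x) hx

/-- the product of all letters is a root of unity -/
theorem prod_torsion {μ : κ → Ω} (P : Finpartition (Finset.univ : Finset κ))
    (hP : ∀ B ∈ P.parts, ∃ t : ℕ, 0 < t ∧ (∏ k : B, μ k) ^ t = 1) :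
    ∃ t : ℕ, 0 < t ∧ (∏ k, μ k) ^ t = 1 := by
  have h1 : ∀ B : Finset κ, ∃ t : ℕ, 0 < t ∧ (B ∈ P.parts → (∏ k : B, μ k) ^ t = 1) := by
    intro B
    by_cases hB : B ∈ P.parts
    · obtain ⟨t, ht, h⟩ := hP B hB
      exact ⟨t, ht, fun _ => h⟩
    · exact ⟨1, one_pos, fun h => absurd h hB⟩
  choose t ht htB using h1
  refine ⟨∏ B ∈ P.parts, t B, Finset.prod_pos fun B _ => ht B, ?_⟩
  rw [prod_block P μ, ← Finset.prod_pow]
  refine Finset.prod_eq_one fun B hB => ?_
  rw [← Finset.mul_prod_erase P.parts t hB, pow_mul, htB B hB, one_pow]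

end

end Pool.Agent.TH121.KT
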