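import Pool.Agent.TH121.KT.Final

/-!
# Products of conjugates which are, up to a rational number, eigenvalues of the other factor
-/

set_option autoImplicit false
set_option linter.unusedSectionVars false

namespace Pool.Agent.TH121.KT

open NumberField Polynomial Module

noncomputable section

variable {r : ℕ} {K : Fin r → Type} [∀ i, Field (K i)] [∀ i, NumberField (K i)]
  [∀ i, IsCMField (K i)]
variable {p : ℕ} [Fact p.Prime] {ι : Qb →+* PadicAlgCl p} {α : ∀ i, K i}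

/-- a product of conjugates -/
def letterProd {Ω : Type*} [Field Ω] [CharZero Ω] (α : ∀ i, K i) (w : Fin r → ℕ)
    (n : ∀ i, (K i →+* Ω) → ℕ) : Ω :=
  ∏ i, ∏ σ : K i →+* Ω, σ (α i) ^ (w i * n i σ)

/-- **Balance.** If a product of conjugates times a power of a root of `Q` is rational, the
multiplicities are invariant under the complex conjugations. -/
theorem balanced_of_relation {Ω : Type*} [Field Ω] [CharZero Ω] [IsAlgClosed Ω]
    (n : ∀ i, (K i →+* Ω) → ℕ) {w : Fin r → ℕ} (hw : ∀ i, 0 < w i) {W : ℕ} {β : Ω} {x₀ : ℚ}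
    (hx₀ : x₀ ≠ 0) (hβ0 : β ≠ 0) (hrel : letterProd α w n * β ^ W = (x₀ : Ω))
    {Q : ℚ[X]} (hQ : Q ≠ 0) (hβ : aeval β Q = 0) {L : IntermediateField ℚ Qb}
    (hL : SlopesFixed p ι L Q) {S : Fin r → IntermediateField ℚ Qb}
    (hS : ∀ i, IsSlopeField p ι (S i) (α i)) {d : Fin r → ℕ}
    (hind : ∀ i, IsIndependent p ι (α i) (tower S L i) (d i))
    (hd : ∀ i, ∑ σ : K i →+* Ω, n i σ ≤ d i) (i : Fin r) (σ : K i →+* Ω) :
    n i σ = n i (cj σ) := by
  classical
  let τ : Qb →+* Ω := (IsAlgClosed.lift : Qb →ₐ[ℚ] Ω).toRingHom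
  obtain ⟨β', hβ', hτβ⟩ := exists_root τ hQ hβ
  have hbij : ∀ i, Function.Bijective (fun ρ : K i →+* Qb => τ.comp ρ) := by
    intro i
    constructor
    · intro ρ ρ' h
      ext x
      exact τ.injective (RingHom.congr_fun h x)
    · intro σ
      obtain ⟨ρ, hρ⟩ := exists_lift τ σ
      exact ⟨ρ, hρ⟩
  let N : (Σ i, (K i →+* Qb)) → ℕ := fun x => n x.1 (τ.comp x.2)
  have hprod : letterProd α w n =
      τ (∏ x : Σ i, (K i →+* Qb), (x.2 (α x.1)) ^ (w x.1 * N x)) := by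
    rw [map_prod, Fintype.prod_sigma]
    unfold letterProd
    refine Finset.prod_congr rfl fun i _ => ?_
    refine (Fintype.prod_equiv (Equiv.ofBijective _ (hbij i)) _ _ fun ρ => ?_).symm
    rw [map_pow]
    rfl
  have hd' : ∀ i, ∑ ρ : K i →+* Qb, N ⟨i, ρ⟩ ≤ d i := by
    intro i
    refine le_trans (le_of_eq ?_) (hd i)
    exact Fintype.sum_equiv (Equiv.ofBijective _ (hbij i)) _ _ fun ρ => rfl
  have hβ0' : β' ≠ 0 := by
    rintro rfl
    rw [map_zero] at hτβ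
    exact hβ0 hτβ.symm
  have hbal := balanced_rat (N := N) (w := w) (W := -(W : ℤ)) (β := β') (x₀ := x₀) hx₀ hβ0' ?_ hw
    hL hβ' hS hind hd'
  · obtain ⟨ρ, rfl⟩ := (hbij i).2 σ
    exact hbal ⟨i, ρ⟩
  · apply τ.injective
    rw [← hprod, map_mul, map_zpow₀, hτβ, map_ratCast, ← hrel, zpow_neg, zpow_natCast]
    field_simp

/-- **Torsion.** If a product of conjugates times a power of a root of `Q` is rational, the product
is `1` or `-1`. -/
theorem torsion_of_relation {Ω : Type*} [Field Ω] [CharZero Ω] [IsAlgClosed Ω]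
    (n : ∀ i, (K i →+* Ω) → ℕ) {w : Fin r → ℕ} (hw : ∀ i, 0 < w i) {W : ℕ} {β : Ω} {x₀ : ℚ}
    (hx₀ : x₀ ≠ 0) (hβ0 : β ≠ 0) (hrel : letterProd α w n * β ^ W = (x₀ : Ω))
    {Q : ℚ[X]} (hQ : Q ≠ 0) (hβ : aeval β Q = 0) {L : IntermediateField ℚ Qb}
    (hL : SlopesFixed p ι L Q) {S : Fin r → IntermediateField ℚ Qb}
    (hS : ∀ i, IsSlopeField p ι (S i) (α i)) {d : Fin r → ℕ}
    (hind : ∀ i, IsIndependent p ι (α i) (tower S L i) (d i))
    (hd : ∀ i, ∑ σ : K i →+* Ω, n i σ ≤ d i) : letterProd α w n ^ 2 = 1 := by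
  classical
  have hbal := balanced_of_relation n hw hx₀ hβ0 hrel hQ hβ hL hS hind hd
  have h1 : letterProd α w n = ∏ i, ∏ σ : K i →+* Ω, ((σ (α i))⁻¹) ^ (w i * n i σ) := by
    unfold letterProd
    refine Finset.prod_congr rfl fun i _ => ?_
    refine Fintype.prod_equiv ⟨cj, cj, cj_cj, cj_cj⟩ _ _ fun σ => ?_
    change _ = ((cj σ (α i))⁻¹) ^ (w i * n i (cj σ))
    rw [← hbal i σ, cj_val (hind i).unitary, inv_inv]
  rw [sq]
  nth_rewrite 2 [h1]
  unfold letterProd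
  rw [← Finset.prod_mul_distrib]
  refine Finset.prod_eq_one fun i _ => ?_
  rw [← Finset.prod_mul_distrib]
  refine Finset.prod_eq_one fun σ _ => ?_
  rw [← mul_pow, mul_inv_cancel₀, one_pow]
  rw [ne_eq, map_eq_zero]
  exact alpha_ne (hind i).unitary

end

end Pool.Agent.TH121.KT
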