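import Mathlib

/-!
# Definitions: slope fields, Weil numbers of height one, rigid Weil numbers, Tate maps
-/

set_option autoImplicit false

namespace Pool.Agent.TH121.KT

open NumberField Polynomial

/-- Fix a place `ι` above `p` of the algebraic closure of the rational numbers. The number `α` in `K`
is of *height one* with the embedding `a`: all complex absolute values of `α` are one, and `a` is the
only embedding `σ` of `K` for which `σ α` has an absolute value less than one at the place `ι`. -/
structure IsHeightOne (p : ℕ) [Fact p.Prime] (ι : AlgebraicClosure ℚ →+* PadicAlgCl p)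
    {K : Type} [Field K] (a : K →+* AlgebraicClosure ℚ) (α : K) : Prop where
  unitary : ∀ φ : K →+* ℂ, ‖φ α‖ = 1
  small : ‖ι (a α)‖ < 1
  unique : ∀ σ : K →+* AlgebraicClosure ℚ, ‖ι (σ α)‖ < 1 → σ = a

/-- The number `α` in the CM field `K` is *rigid*: all its complex absolute values are one, and
there is no multiplicative relation between its conjugates in terms of their absolute values at
the place `ι` and its conjugates, apart from `σ α * (conjugate of σ α) = 1`. -/
structure IsRigid (p : ℕ) [Fact p.Prime] (ι : AlgebraicClosure ℚ →+* PadicAlgCl p)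
    {K : Type} [Field K] [NumberField K] [IsCMField K] (α : K) : Prop where
  unitary : ∀ φ : K →+* ℂ, ‖φ α‖ = 1
  rigid : ∀ m : (K →+* AlgebraicClosure ℚ) → ℤ,
    (∀ σ, m (σ.comp (IsCMField.complexConj K : K →+* K)) = - m σ) →
    (∀ g : AlgebraicClosure ℚ ≃ₐ[ℚ] AlgebraicClosure ℚ,
      ∑ σ : K →+* AlgebraicClosure ℚ, (m σ : ℝ) * Real.log ‖ι (g (σ α))‖ = 0) → ∀ σ, m σ = 0

/-- The absolute values at the place `ι` of the conjugates of the roots of `Q` are determined by the
field `L`: they are not changed by the automorphisms which fix all elements of `L`. (For example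
`L` may be any field that contains all roots of `Q`.) -/
def SlopesFixed (p : ℕ) [Fact p.Prime] (ι : AlgebraicClosure ℚ →+* PadicAlgCl p)
    (L : IntermediateField ℚ (AlgebraicClosure ℚ)) (Q : ℚ[X]) : Prop :=
  ∀ h : AlgebraicClosure ℚ ≃ₐ[ℚ] AlgebraicClosure ℚ, (∀ x ∈ L, h x = x) →
    ∀ β : AlgebraicClosure ℚ, aeval β Q = 0 → ‖ι (h β)‖ = ‖ι β‖

/-- `L` is a *slope field* of `α`: the absolute values at the place `ι` of the conjugates of `α` are
not changed by the automorphisms which fix all elements of `L`. -/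
def IsSlopeField (p : ℕ) [Fact p.Prime] (ι : AlgebraicClosure ℚ →+* PadicAlgCl p)
    (L : IntermediateField ℚ (AlgebraicClosure ℚ)) {K : Type} [Field K] (α : K) : Prop :=
  ∀ h : AlgebraicClosure ℚ ≃ₐ[ℚ] AlgebraicClosure ℚ, (∀ x ∈ L, h x = x) →
    ∀ σ : K →+* AlgebraicClosure ℚ, ‖ι (h (σ α))‖ = ‖ι (σ α)‖

/-- The field generated by `L` and the fields `S j`, `j < i`. -/
noncomputable def tower {r : ℕ} (S : Fin r → IntermediateField ℚ (AlgebraicClosure ℚ))
    (L : IntermediateField ℚ (AlgebraicClosure ℚ))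
    (i : Fin r) : IntermediateField ℚ (AlgebraicClosure ℚ) :=
  L ⊔ ⨆ j : {j : Fin r // j < i}, S j.1

/-- The field of all `x` in `K` such that `σ x` is in `T`. -/
noncomputable def preimage {K : Type} [Field K] [NumberField K]
    (T : IntermediateField ℚ (AlgebraicClosure ℚ)) (σ : K →+* AlgebraicClosure ℚ) :
    IntermediateField ℚ K :=
  T.comap σ.toRatAlgHom

/-- The field `σ K ∩ T` is totally real (not a CM field), or its index in `σ K` is larger than
`d`. -/
def IsFree {K : Type} [Field K] [NumberField K] [IsCMField K]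
    (T : IntermediateField ℚ (AlgebraicClosure ℚ)) (σ : K →+* AlgebraicClosure ℚ) (d : ℕ) : Prop :=
  (∀ x ∈ preimage T σ, IsCMField.complexConj K x = x) ∨
    d < Module.finrank (preimage T σ) K

/-- The CM number `α` is independent of the field `T` in degree `d`. Either it is of height one and
`σ K ∩ T` is totally real or of index larger than `d` in `σ K`, for the embedding `σ` given by the
place `ι`; or it is rigid and this is true for all embeddings and for a Galois extension of the
rational numbers that contains `T`. -/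
def IsIndependent (p : ℕ) [Fact p.Prime] (ι : AlgebraicClosure ℚ →+* PadicAlgCl p)
    {K : Type} [Field K] [NumberField K] [IsCMField K] (α : K)
    (T : IntermediateField ℚ (AlgebraicClosure ℚ)) (d : ℕ) : Prop :=
  (∃ a, IsHeightOne p ι a α ∧ IsFree T a d) ∨
    (IsRigid p ι α ∧ ∃ T' : IntermediateField ℚ (AlgebraicClosure ℚ), Normal ℚ T' ∧ T ≤ T' ∧
      ∀ σ : K →+* AlgebraicClosure ℚ, IsFree T' σ d)

/-- The space `V` is spanned by eigenvectors of `F`, and the eigenvalues are roots of unity or,
up to roots of unity, `e`-th roots of conjugates of `α`. -/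
def HasEigenvalues {K Ω V : Type} [Field K] [Field Ω] [AddCommGroup V] [Module Ω V] (e : ℕ)
    (α : K) (F : V →ₗ[Ω] V) : Prop :=
  Submodule.span Ω {x : V | ∃ μ : Ω, F x = μ • x ∧ ((∃ N : ℕ, 0 < N ∧ μ ^ N = 1) ∨
    ∃ (σ : K →+* Ω) (N : ℕ), 0 < N ∧ μ ^ (e * N) = σ α ^ N)} = ⊤

/-- `f` is a Tate map: it commutes with a power of the Frobenius. -/
def IsTateMap {κ Ω M : Type} {V : κ → Type} [Field Ω] [∀ k, AddCommGroup (V k)]
    [∀ k, Module Ω (V k)] [AddCommGroup M] [Module Ω M] (F : ∀ k, V k →ₗ[Ω] V k)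
    (G : M →ₗ[Ω] M) (f : MultilinearMap Ω V M) : Prop :=
  ∃ s : ℕ, 0 < s ∧ ∀ v, f (fun k => (F k ^ s) (v k)) = (G ^ s) (f v)

/-- `ψ` is the product of Tate forms, in disjoint sets `B` of variables, and of a Tate vector `y`;
each set `B` has at most two elements, and belongs to one of the varieties `X i`. -/
def IsProduct {r : ℕ} {κ Ω M : Type} [Fintype κ] [DecidableEq κ] {V : κ → Type} [Field Ω]
    [∀ k, AddCommGroup (V k)] [∀ k, Module Ω (V k)] [AddCommGroup M] [Module Ω M]
    (c : κ → Fin r) (F : ∀ k, V k →ₗ[Ω] V k) (G : M →ₗ[Ω] M) (ψ : MultilinearMap Ω V M) : Prop :=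
  ∃ (P : Finpartition (Finset.univ : Finset κ))
    (f : ∀ B : Finset κ, MultilinearMap Ω (fun k : B => V k) Ω) (y : M),
    (∀ B ∈ P.parts, B.card ≤ 2 ∧ (∀ k ∈ B, ∀ l ∈ B, c k = c l) ∧
      ∃ s : ℕ, 0 < s ∧ ∀ v, f B (fun k => (F k ^ s) (v k)) = f B v) ∧
    (∃ s : ℕ, 0 < s ∧ (G ^ s) y = y) ∧
    ∀ v, ψ v = (∏ B ∈ P.parts, f B (fun k => v k)) • y

end Pool.Agent.TH121.KT
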