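import Pool.Agent.TH121.KT.Defs
import Pool.Agent.W534.TateDefs
import Pool.Agent.H281R3.HT.Defs

/-!
# Varieties whose Frobenius eigenvalues are products of Weil numbers: definitions
-/

set_option autoImplicit false

open CategoryTheory AlgebraicGeometry NumberField Polynomial

universe u v

namespace Pool.Agent.TH121.KT

open Pool.Agent.H914 Pool.Agent.H914.VarClass Pool.Agent.H914.VarClass.Obj
  Pool.Agent.H914.WeilCohomology Pool.Agent.H281R3.HT Pool.Agent.W534

/-- Each eigenvalue `μ` of the Frobenius endomorphism of `X` on the cohomology is a *product of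
conjugates of the numbers* `α i`, with at most `d i` conjugates of `α i` for each `i`: some power
`μ ^ N` is a power of `p` times the product of the numbers `σ (α i) ^ (w i * n i σ)`, with positive
exponents `w i` and multiplicities `n i σ` (of the embeddings `σ` of `K i`) whose sum over `σ` is at
most `d i`. -/
def FrobeniusProducts {k : Type u} [Field k] {𝒱 : VarClass k} {ops : CycleOps 𝒱}
    {W : WeilCohomology.{u, v} ops} {p : ℕ} (Φ : FrobSystem W p) (X : 𝒱.Obj) {r : ℕ}
    {K : Fin r → Type} [∀ i, Field (K i)] [∀ i, NumberField (K i)] (α : ∀ i, K i)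
    (d : Fin r → ℕ) : Prop :=
  ∀ μ : W.K, Module.End.HasEigenvalue (W.map (Φ.Fr X)).toLinearMap μ →
    ∃ (N : ℕ) (b : ℤ) (w : Fin r → ℕ) (n : ∀ i, (K i →+* W.K) → ℕ), 0 < N ∧ (∀ i, 0 < w i) ∧
      (∀ i, ∑ σ : K i →+* W.K, n i σ ≤ d i) ∧
      μ ^ N = (p : W.K) ^ b * ∏ i, ∏ σ : K i →+* W.K, σ (α i) ^ (w i * n i σ)

/-- The Tate conjecture for `X` and all powers of the Frobenius endomorphism, in the strong form:
the generalised eigenvectors for all eigenvalues which are rational powers of `p`, up to roots of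
unity, are combinations of classes of cycles. -/
def SupersingularAlgebraic {k : Type u} [Field k] {𝒱 : VarClass k} {ops : CycleOps 𝒱}
    {W : WeilCohomology.{u, v} ops} {p : ℕ} (Φ : FrobSystem W p) (X : 𝒱.Obj) : Prop :=
  ∀ s : ℕ, 0 < s → ∀ (μ : W.K) (N : ℕ) (b : ℤ), 0 < N → μ ^ N = (p : W.K) ^ b →
    Module.End.maxGenEigenspace (W.map (W534.iter (Φ.Fr X) s)).toLinearMap μ ≤ algSpan W X

/-- The eigenvalues of the Frobenius endomorphism of `U` on the cohomology are roots of a nonzero
rational polynomial whose slopes at the place `ι` are determined by the field `L`. -/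
def FrobeniusSlopes {k : Type u} [Field k] {𝒱 : VarClass k} {ops : CycleOps 𝒱}
    {W : WeilCohomology.{u, v} ops} {p : ℕ} [Fact p.Prime] (Φ : FrobSystem W p)
    (ι : AlgebraicClosure ℚ →+* PadicAlgCl p) (L : IntermediateField ℚ (AlgebraicClosure ℚ))
    (U : 𝒱.Obj) : Prop :=
  ∃ Q : ℚ[X], Q ≠ 0 ∧ SlopesFixed p ι L Q ∧
    ∀ ν : W.K, Module.End.HasEigenvalue (W.map (Φ.Fr U)).toLinearMap ν → aeval ν Q = 0

end Pool.Agent.TH121.KT
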