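import Pool.Agent.TH121.KT.Defs

/-!
# Orbits of embeddings under the group generated by two Galois groups
-/

set_option autoImplicit false
set_option linter.unusedSectionVars false

namespace Pool.Agent.TH121.KT

open NumberField Polynomial

noncomputable section

/-- the algebraic closure of the rational numbers -/
abbrev Qb := AlgebraicClosure ℚ

instance instAlgQb : Algebra.IsAlgebraic ℚ Qb := AlgebraicClosure.isAlgebraic ℚ

instance instClosureQb : IsAlgClosure ℚ Qb := ⟨inferInstance, inferInstance⟩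

/-- its Galois group -/
abbrev GQ := Qb ≃ₐ[ℚ] Qb

variable {K : Type} [Field K] [NumberField K]

/-- the Galois group acts on embeddings -/
def act (g : GQ) (σ : K →+* Qb) : K →+* Qb := (g : Qb →+* Qb).comp σ

theorem act_apply (g : GQ) (σ : K →+* Qb) (x : K) : act g σ x = g (σ x) := rfl

theorem act_mul (g h : GQ) (σ : K →+* Qb) : act (g * h) σ = act g (act h σ) := rfl

theorem act_one (σ : K →+* Qb) : act 1 σ = σ := rfl

theorem act_inv_act (g : GQ) (σ : K →+* Qb) : act g⁻¹ (act g σ) = σ := by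
  rw [← act_mul, inv_mul_cancel, act_one]

theorem act_act_inv (g : GQ) (σ : K →+* Qb) : act g (act g⁻¹ σ) = σ := by
  rw [← act_mul, mul_inv_cancel, act_one]

/-- the Galois group acts transitively on embeddings -/
theorem exists_act_eq (σ τ : K →+* Qb) : ∃ g : GQ, act g σ = τ := by
  let φ : K →ₐ[ℚ] Qb := σ.toRatAlgHom
  let ψ : K →ₐ[ℚ] Qb := τ.toRatAlgHom
  let _ : Algebra K Qb := σ.toAlgebra
  have hst : IsScalarTower ℚ K Qb := IsScalarTower.of_algebraMap_eq fun x => (φ.commutes x).symm
  let h : Qb →ₐ[ℚ] Qb := AlgHom.liftNormal ψ Qb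
  have hh : ∀ x, h (φ x) = ψ x := fun x => AlgHom.liftNormal_commutes ψ Qb x
  have hbij : Function.Bijective h := Algebra.IsAlgebraic.algHom_bijective h
  refine ⟨AlgEquiv.ofBijective h hbij, ?_⟩
  ext x
  exact hh x

/-- fixed field of a fixing subgroup -/
theorem mem_of_fixed (F : IntermediateField ℚ Qb) {x : Qb}
    (hx : ∀ h : GQ, (∀ y ∈ F, h y = y) → h x = x) : x ∈ F := by
  have h1 : IntermediateField.fixedField F.fixingSubgroup = F :=
    InfiniteGalois.fixedField_fixingSubgroup F
  rw [← h1]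
  intro h
  exact hx h.1 (fun y hy => h.2 ⟨y, hy⟩)

/-- the subgroup generated by the Galois groups over `a K` and over `F` -/
def SS (a : K →+* Qb) (F : IntermediateField ℚ Qb) : Subgroup GQ :=
  Subgroup.closure ({h | act h a = a} ∪ {h | ∀ x ∈ F, h x = x})

/-- **Orbit lemma.** -/
theorem orbit (a : K →+* Qb) (F : IntermediateField ℚ Qb) (b : K →+* Qb)
    (hb : ∀ x : K, a x ∈ F → b x = a x) : ∃ h ∈ SS a F, act h a = b := by
  classical
  obtain ⟨θ, hθ⟩ := Field.exists_primitive_element ℚ K
  -- the orbit of `a θ`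
  let S := SS a F
  let O : Set Qb := {y | ∃ h ∈ S, h (a θ) = y}
  have hOfin : O.Finite := by
    refine Set.Finite.subset ((minpoly ℚ θ).rootSet_finite Qb) ?_
    rintro y ⟨h, _, rfl⟩
    rw [Polynomial.mem_rootSet]
    refine ⟨minpoly.ne_zero (Algebra.IsIntegral.isIntegral θ), ?_⟩
    have h1 : h (a θ) = (act h a).toRatAlgHom θ := rfl
    rw [h1, Polynomial.aeval_algHom_apply, minpoly.aeval, map_zero]
  let P : Qb[X] := ∏ y ∈ hOfin.toFinset, (X - C y)
  have hperm : ∀ h ∈ S, P.map (h : Qb →+* Qb) = P := by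
    intro h hh
    have h1 : P.map (h : Qb →+* Qb) = ∏ y ∈ hOfin.toFinset, (X - C (h y)) := by
      simp only [P, Polynomial.map_prod, Polynomial.map_sub, Polynomial.map_X, Polynomial.map_C]
      rfl
    rw [h1]
    refine Finset.prod_bij (fun y _ => h y) ?_ ?_ ?_ ?_
    · intro y hy
      rw [Set.Finite.mem_toFinset] at hy ⊢
      obtain ⟨g, hg, rfl⟩ := hy
      exact ⟨h * g, S.mul_mem hh hg, rfl⟩
    · intro y _ z _ hyz
      exact h.injective hyz
    · intro y hy
      rw [Set.Finite.mem_toFinset] at hy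
      obtain ⟨g, hg, rfl⟩ := hy
      refine ⟨h⁻¹ (g (a θ)), ?_, ?_⟩
      · rw [Set.Finite.mem_toFinset]
        exact ⟨h⁻¹ * g, S.mul_mem (S.inv_mem hh) hg, rfl⟩
      · exact h.apply_symm_apply _
    · intro y _
      rfl
  have hcoef : ∀ m, ∀ h ∈ S, h (P.coeff m) = P.coeff m := by
    intro m h hh
    have h1 := hperm h hh
    conv_rhs => rw [← h1]
    rw [Polynomial.coeff_map]
    rfl
  have hcF : ∀ m, P.coeff m ∈ F := fun m => mem_of_fixed F fun h hh =>
    hcoef m h (Subgroup.subset_closure (Or.inr hh))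
  have hca : ∀ m, P.coeff m ∈ a.toRatAlgHom.fieldRange := fun m => by
    refine mem_of_fixed _ fun h hh => hcoef m h (Subgroup.subset_closure (Or.inl ?_))
    ext x
    exact hh (a x) ⟨x, rfl⟩
  have hex : ∀ m, ∃ x : K, a x = P.coeff m := by
    intro m
    obtain ⟨x, hx⟩ := hca m
    exact ⟨x, hx⟩
  choose c hc using hex
  have hbc : ∀ m, b (c m) = P.coeff m := by
    intro m
    rw [hb (c m) (by rw [hc]; exact hcF m), hc]
  -- evaluate at `a θ`
  have hPa : P.eval (a θ) = 0 := by
    have h1 : a θ ∈ hOfin.toFinset := by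
      rw [Set.Finite.mem_toFinset]
      exact ⟨1, S.one_mem, rfl⟩
    simp only [P, Polynomial.eval_prod, Polynomial.eval_sub, Polynomial.eval_X, Polynomial.eval_C]
    exact Finset.prod_eq_zero h1 (sub_self _)
  have hPK : ∑ m ∈ Finset.range (P.natDegree + 1), c m * θ ^ m = 0 := by
    apply a.injective
    rw [map_sum, map_zero, ← hPa, Polynomial.eval_eq_sum_range]
    exact Finset.sum_congr rfl fun m _ => by rw [map_mul, map_pow, hc]
  have hPb : P.eval (b θ) = 0 := by
    rw [Polynomial.eval_eq_sum_range]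
    have h1 := congrArg b hPK
    rw [map_sum, map_zero] at h1
    rw [← h1]
    exact Finset.sum_congr rfl fun m _ => by rw [map_mul, map_pow, hbc]
  have hbO : b θ ∈ O := by
    simp only [P, Polynomial.eval_prod, Polynomial.eval_sub, Polynomial.eval_X,
      Polynomial.eval_C] at hPb
    obtain ⟨y, hy, hy0⟩ := Finset.prod_eq_zero_iff.1 hPb
    rw [sub_eq_zero.1 hy0]
    exact (Set.Finite.mem_toFinset hOfin).1 hy
  obtain ⟨h, hh, hhθ⟩ := hbO
  refine ⟨h, hh, ?_⟩
  have key : ∀ x ∈ IntermediateField.adjoin ℚ {θ}, act h a x = b x := by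
    intro x hx
    induction hx using IntermediateField.adjoin_induction with
    | mem x hx =>
      rw [Set.mem_singleton_iff.1 hx]
      exact hhθ
    | algebraMap x => rw [eq_ratCast, map_ratCast, map_ratCast]
    | add x y _ _ hx hy => rw [map_add, map_add, hx, hy]
    | inv x _ hx => rw [map_inv₀, map_inv₀, hx]
    | mul x y _ _ hx hy => rw [map_mul, map_mul, hx, hy]
  ext x
  exact key x (by rw [hθ]; exact IntermediateField.mem_top)

end

end Pool.Agent.TH121.KT
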