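import Pool.Agent.TH121.KT.Orbit

/-!
# Multiplicative relations between Weil numbers of height one and rigid Weil numbers
-/

set_option autoImplicit false
set_option linter.unusedSectionVars false

namespace Pool.Agent.TH121.KT

open NumberField Polynomial

noncomputable section

section conj

variable {K : Type} [Field K] [NumberField K] [IsCMField K] {A : Type*} [Field A]

/-- the conjugate embedding -/
def cj (σ : K →+* A) : K →+* A := σ.comp (IsCMField.complexConj K : K →+* K)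

theorem cj_apply (σ : K →+* A) (x : K) : cj σ x = σ (IsCMField.complexConj K x) := rfl

theorem cj_cj (σ : K →+* A) : cj (cj σ) = σ := by
  ext x
  rw [cj_apply, cj_apply, IsCMField.complexConj_apply_apply]

theorem act_cj (g : GQ) (σ : K →+* Qb) : act g (cj σ) = cj (act g σ) := rfl

theorem conj_eq_inv {α : K} (h : ∀ φ : K →+* ℂ, ‖φ α‖ = 1) : IsCMField.complexConj K α = α⁻¹ := by
  obtain ⟨φ⟩ : Nonempty (K →+* ℂ) := inferInstance
  have hα : α ≠ 0 := by
    rintro rfl
    have := h φ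
    rw [map_zero, norm_zero] at this
    exact zero_ne_one this
  refine eq_inv_of_mul_eq_one_right ?_
  apply φ.injective
  rw [map_mul, IsCMField.complexEmbedding_complexConj, map_one, Complex.mul_conj,
    Complex.normSq_eq_norm_sq, h φ]
  norm_num

theorem cj_val {α : K} (h : ∀ φ : K →+* ℂ, ‖φ α‖ = 1) (σ : K →+* A) : cj σ α = (σ α)⁻¹ := by
  rw [cj_apply, conj_eq_inv h, map_inv₀]

theorem alpha_ne {α : K} (h : ∀ φ : K →+* ℂ, ‖φ α‖ = 1) : α ≠ 0 := by
  intro h0
  obtain ⟨φ⟩ : Nonempty (K →+* ℂ) := inferInstance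
  have h1 := h φ
  rw [h0, map_zero, norm_zero] at h1
  exact zero_ne_one h1

variable {p : ℕ} [Fact p.Prime] {ι : Qb →+* PadicAlgCl p} {a : K →+* Qb} {α : K}

theorem norm_pos' (h : ∀ φ : K →+* ℂ, ‖φ α‖ = 1) (σ : K →+* Qb) : 0 < ‖ι (σ α)‖ := by
  rw [norm_pos_iff, ne_eq, map_eq_zero, map_eq_zero]
  exact alpha_ne h

theorem cj_norm (h : ∀ φ : K →+* ℂ, ‖φ α‖ = 1) (σ : K →+* Qb) :
    ‖ι (cj σ α)‖ = ‖ι (σ α)‖⁻¹ := by
  rw [cj_val h, map_inv₀, norm_inv]

theorem IsHeightOne.cj_ne (h : IsHeightOne p ι a α) : cj a ≠ a := by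
  intro h0
  have h1 := cj_norm (ι := ι) h.unitary a
  rw [h0] at h1
  have h2 := norm_pos' (ι := ι) h.unitary a
  have h3 := h.small
  have h4 : ‖ι (a α)‖ * ‖ι (a α)‖ = 1 := by
    nth_rewrite 1 [h1]
    exact inv_mul_cancel₀ h2.ne'
  nlinarith

theorem IsHeightOne.log_lt (h : IsHeightOne p ι a α) : Real.log ‖ι (a α)‖ < 0 :=
  Real.log_neg (norm_pos' h.unitary a) h.small

theorem IsHeightOne.norm_eq_one (h : IsHeightOne p ι a α) {σ : K →+* Qb} (h1 : σ ≠ a)
    (h2 : σ ≠ cj a) : ‖ι (σ α)‖ = 1 := by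
  have h3 : ¬ ‖ι (σ α)‖ < 1 := fun h3 => h1 (h.unique σ h3)
  have h4 : ¬ 1 < ‖ι (σ α)‖ := by
    intro h4
    have h5 : ‖ι (cj σ α)‖ < 1 := by
      rw [cj_norm h.unitary]
      exact inv_lt_one_of_one_lt₀ h4
    have h6 := h.unique _ h5
    exact h2 (by rw [← h6, cj_cj])
  exact le_antisymm (not_lt.1 h4) (not_lt.1 h3)

open Classical in
theorem IsHeightOne.log_norm (h : IsHeightOne p ι a α) (σ : K →+* Qb) :
    Real.log ‖ι (σ α)‖ = Real.log ‖ι (a α)‖ *
      ((if σ = a then 1 else 0) - (if σ = cj a then 1 else 0)) := by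
  by_cases h1 : σ = a
  · rw [if_pos h1, if_neg (by rw [h1]; exact h.cj_ne.symm), h1]
    ring
  · by_cases h2 : σ = cj a
    · rw [if_neg h1, if_pos h2, h2, cj_norm h.unitary, Real.log_inv]
      ring
    · rw [if_neg h1, if_neg h2, sub_zero, mul_zero, h.norm_eq_one h1 h2, Real.log_one]

/-- The field itself is a slope field of a number of height one. -/
theorem IsHeightOne.isSlopeField (h : IsHeightOne p ι a α) :
    IsSlopeField p ι a.toRatAlgHom.fieldRange α := by
  intro u hu σ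
  have h0 : act u a = a := by
    ext x
    exact hu (a x) ⟨x, rfl⟩
  by_cases h1 : σ = a
  · subst h1
    have h2 : u (σ α) = σ α := RingHom.congr_fun h0 α
    rw [h2]
  · by_cases h2 : σ = cj a
    · have h3 : act u σ = σ := by rw [h2, act_cj, h0]
      have h4 : u (σ α) = σ α := RingHom.congr_fun h3 α
      rw [h4]
    · rw [h.norm_eq_one h1 h2]
      have h5 : act u σ ≠ a := by
        intro h5
        apply h1
        rw [← act_inv_act u σ, h5]
        conv_lhs => rw [← h0]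
        exact act_inv_act u a
      have h6 : act u σ ≠ cj a := by
        intro h6
        apply h2
        rw [← act_inv_act u σ, h6]
        conv_lhs => rw [← h0]
        exact act_inv_act u (cj a)
      have h7 := h.norm_eq_one h5 h6
      rw [act_apply] at h7
      exact h7

/-- number of embeddings of `K` that agree with `a` on a subfield -/
theorem card_agree {K : Type} [Field K] [NumberField K] (a : K →+* Qb)
    (E : IntermediateField ℚ K) :
    Nat.card {b : K →+* Qb // ∀ x ∈ E, b x = a x} = Module.finrank E K := by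
  let _ : Algebra E Qb := (a.comp (algebraMap E K)).toAlgebra
  have h1 : Fintype.card (K →ₐ[E] Qb) = Module.finrank E K := AlgHom.card E K Qb
  rw [← h1, ← Nat.card_eq_fintype_card]
  refine Nat.card_congr ⟨fun b => { b.1 with commutes' := fun x => b.2 x.1 x.2 },
    fun b => ⟨b.toRingHom, fun x hx => b.commutes ⟨x, hx⟩⟩, fun b => ?_, fun b => ?_⟩
  · rfl
  · rfl

/-- the odd part of a multiplicity function -/
def odd (N : (K →+* Qb) → ℕ) (σ : K →+* Qb) : ℤ := (N σ : ℤ) - N (cj σ)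

theorem odd_cj (N : (K →+* Qb) → ℕ) (σ : K →+* Qb) : odd N (cj σ) = - odd N σ := by
  unfold odd
  rw [cj_cj]
  ring

/-- the contribution of a block -/
def FF (ι : Qb →+* PadicAlgCl p) (α : K) (N : (K →+* Qb) → ℕ) (g : GQ) : ℝ :=
  ∑ σ : K →+* Qb, (N σ : ℝ) * Real.log ‖ι (g (σ α))‖

theorem two_FF (h : ∀ φ : K →+* ℂ, ‖φ α‖ = 1) (N : (K →+* Qb) → ℕ) (g : GQ) :
    ∑ σ : K →+* Qb, (odd N σ : ℝ) * Real.log ‖ι (g (σ α))‖ = 2 * FF ι α N g := by
  have h1 : ∑ σ : K →+* Qb, (N (cj σ) : ℝ) * Real.log ‖ι (g (σ α))‖ = - FF ι α N g := by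
    unfold FF
    rw [← Finset.sum_neg_distrib]
    refine Fintype.sum_equiv ⟨cj, cj, cj_cj, cj_cj⟩ _ _ fun σ => ?_
    change _ = -((N (cj σ) : ℝ) * Real.log ‖ι (g (cj σ α))‖)
    have h2 : ‖ι (g (cj σ α))‖ = ‖ι (g (σ α))‖⁻¹ := cj_norm (ι := ι) h (act g σ)
    rw [h2, Real.log_inv]
    ring
  have h2 : ∀ σ : K →+* Qb, (odd N σ : ℝ) * Real.log ‖ι (g (σ α))‖ =
      (N σ : ℝ) * Real.log ‖ι (g (σ α))‖ - (N (cj σ) : ℝ) * Real.log ‖ι (g (σ α))‖ := by
    intro σ
    unfold odd
    push_cast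
    ring
  rw [Finset.sum_congr rfl fun σ _ => h2 σ, Finset.sum_sub_distrib, h1]
  unfold FF
  ring

theorem FF_zero (h : ∀ φ : K →+* ℂ, ‖φ α‖ = 1) {N : (K →+* Qb) → ℕ} (hN : ∀ σ, odd N σ = 0)
    (g : GQ) : FF ι α N g = 0 := by
  have h1 := two_FF (ι := ι) h N g
  have h2 : ∑ σ : K →+* Qb, (odd N σ : ℝ) * Real.log ‖ι (g (σ α))‖ = 0 := by
    refine Finset.sum_eq_zero fun σ _ => ?_
    rw [hN, Int.cast_zero, zero_mul]
  linarith

theorem FF_slope {S : IntermediateField ℚ Qb} (hS : IsSlopeField p ι S α) {h : GQ}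
    (hh : ∀ x ∈ S, h x = x) (N : (K →+* Qb) → ℕ) (g : GQ) : FF ι α N (h * g) = FF ι α N g := by
  unfold FF
  refine Finset.sum_congr rfl fun σ _ => ?_
  have h1 : ‖ι ((h * g) (σ α))‖ = ‖ι (g (σ α))‖ := hS h hh (act g σ)
  rw [h1]

/-- If the odd part is constant on the fibre of `σ` it vanishes at `σ`. -/
theorem zero_of_const {N : (K →+* Qb) → ℕ} {T : IntermediateField ℚ Qb} {σ : K →+* Qb} {d : ℕ}
    (hfree : IsFree T σ d) (hd : ∑ σ, N σ ≤ d) (u : GQ)
    (hc : ∀ b : K →+* Qb, (∀ x ∈ preimage T σ, b x = σ x) →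
      odd N (act u b) = odd N (act u σ)) : odd N (act u σ) = 0 := by
  classical
  rcases hfree with hf | hf
  · have h1 := hc (cj σ) (fun x hx => by rw [cj_apply, hf x hx])
    rw [act_cj, odd_cj] at h1
    omega
  · by_contra hne
    have h1 : ∃ f : {b : K →+* Qb // ∀ x ∈ preimage T σ, b x = σ x} → (K →+* Qb),
        Function.Injective f ∧ ∀ b, 1 ≤ N (f b) := by
      unfold odd at hne hc
      rcases lt_or_gt_of_ne hne with hlt | hlt
      · refine ⟨fun b => cj (act u b.1), ?_, ?_⟩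
        · intro b b' hbb
          have h2 := congrArg cj hbb
          simp only [cj_cj] at h2
          have h3 := congrArg (act u⁻¹) h2
          rw [act_inv_act, act_inv_act] at h3
          exact Subtype.ext h3
        · intro b
          have h2 := hc b.1 b.2
          dsimp only
          omega
      · refine ⟨fun b => act u b.1, ?_, ?_⟩
        · intro b b' hbb
          have h3 := congrArg (act u⁻¹) hbb
          simp only [act_inv_act] at h3
          exact Subtype.ext h3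
        · intro b
          have h2 := hc b.1 b.2
          dsimp only
          omega
    obtain ⟨f, hf', hf1⟩ := h1
    have hcard := card_agree σ (preimage T σ)
    have h2 : Nat.card {b : K →+* Qb // ∀ x ∈ preimage T σ, b x = σ x} ≤
        ∑ σ : K →+* Qb, N σ := by
      rw [Nat.card_eq_fintype_card]
      calc Fintype.card {b : K →+* Qb // ∀ x ∈ preimage T σ, b x = σ x}
          = (Finset.univ.image f).card := by
            rw [Finset.card_image_of_injective _ hf', Finset.card_univ]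
        _ = ∑ σ ∈ Finset.univ.image f, 1 := by simp
        _ ≤ ∑ σ ∈ Finset.univ.image f, N σ := by
            refine Finset.sum_le_sum fun σ hσ => ?_
            obtain ⟨b, _, rfl⟩ := Finset.mem_image.1 hσ
            exact hf1 b
        _ ≤ ∑ σ : K →+* Qb, N σ :=
            Finset.sum_le_sum_of_subset (Finset.subset_univ _)
    omega

/-- **One block, height one.** -/
theorem heightOne_zero (hα : IsHeightOne p ι a α) {N : (K →+* Qb) → ℕ}
    {T : IntermediateField ℚ Qb} {d : ℕ} (hfree : IsFree T a d) (hd : ∑ σ, N σ ≤ d)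
    (hinv : ∀ h : GQ, (∀ x ∈ T, h x = x) → ∀ g, FF ι α N (h * g) = FF ι α N g)
    (σ : K →+* Qb) : odd N σ = 0 := by
  classical
  have hFF : ∀ g, FF ι α N g = Real.log ‖ι (a α)‖ * odd N (act g⁻¹ a) := by
    intro g
    have h2 : ∀ σ : K →+* Qb, (N σ : ℝ) * Real.log ‖ι (g (σ α))‖ =
        Real.log ‖ι (a α)‖ * ((if σ = act g⁻¹ a then (N σ : ℝ) else 0) -
          (if σ = act g⁻¹ (cj a) then (N σ : ℝ) else 0)) := by
      intro σ
      have h3 := hα.log_norm (act g σ)
      have e1 : (act g σ = a) ↔ σ = act g⁻¹ a := by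
        constructor
        · intro h
          rw [← h, act_inv_act]
        · intro h
          rw [h, act_act_inv]
      have e2 : (act g σ = cj a) ↔ σ = act g⁻¹ (cj a) := by
        constructor
        · intro h
          rw [← h, act_inv_act]
        · intro h
          rw [h, act_act_inv]
      change _ * Real.log ‖ι (act g σ α)‖ = _
      rw [h3]
      simp only [e1, e2]
      split_ifs <;> ring
    unfold FF
    rw [Finset.sum_congr rfl fun σ _ => h2 σ, ← Finset.mul_sum, Finset.sum_sub_distrib,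
      Finset.sum_ite_eq' Finset.univ, Finset.sum_ite_eq' Finset.univ, if_pos (Finset.mem_univ _),
      if_pos (Finset.mem_univ _)]
    unfold odd
    rw [act_cj]
    push_cast
    ring
  have hlog := hα.log_lt.ne
  have hS : ∀ {h : GQ}, h ∈ SS a T → ∀ g, odd N (act (h * g)⁻¹ a) = odd N (act g⁻¹ a) := by
    intro h hh
    induction hh using Subgroup.closure_induction with
    | mem h hh =>
      intro g
      rcases hh with hh | hh
      · have h1 : act (h * g)⁻¹ a = act g⁻¹ a := by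
          rw [mul_inv_rev, act_mul]
          congr 1
          conv_lhs => rw [← (show act h a = a from hh)]
          rw [act_inv_act]
        rw [h1]
      · have h1 := hinv h hh g
        rw [hFF, hFF] at h1
        exact_mod_cast mul_left_cancel₀ hlog h1
    | one =>
      intro g
      rw [one_mul]
    | mul h k _ _ h1 h2 =>
      intro g
      rw [mul_assoc, h1, h2]
    | inv h _ h1 =>
      intro g
      rw [← h1 (h⁻¹ * g), mul_inv_cancel_left]
  obtain ⟨g, hg⟩ := exists_act_eq σ a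
  have h1 : act g⁻¹ a = σ := by rw [← hg, act_inv_act]
  rw [← h1]
  refine zero_of_const hfree hd g⁻¹ fun b hb => ?_
  obtain ⟨h, hh, hhb⟩ := orbit a T b hb
  have h2 := hS (Subgroup.inv_mem _ hh) g
  rw [← h2, mul_inv_rev, inv_inv, act_mul, hhb]

/-- **One block, rigid.** -/
theorem rigid_zero (hα : IsRigid p ι α) {N : (K →+* Qb) → ℕ}
    {T T' : IntermediateField ℚ Qb} [Normal ℚ T'] (hT : T ≤ T') {d : ℕ}
    (hfree : ∀ σ : K →+* Qb, IsFree T' σ d) (hd : ∑ σ, N σ ≤ d)
    (hinv : ∀ h : GQ, (∀ x ∈ T, h x = x) → ∀ g, FF ι α N (h * g) = FF ι α N g)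
    (σ : K →+* Qb) : odd N σ = 0 := by
  classical
  -- normality
  have hconj : ∀ (g h : GQ), (∀ x ∈ T', h x = x) → ∀ x ∈ T', (g * h * g⁻¹) x = x := by
    intro g h hh x hx
    have h1 : g⁻¹ x ∈ T' := by
      have h2 := IntermediateField.normal_iff_forall_map_le.1 (inferInstance : Normal ℚ T')
        ((g⁻¹ : GQ) : Qb →ₐ[ℚ] Qb)
      exact h2 ⟨x, hx, rfl⟩
    rw [AlgEquiv.mul_apply, AlgEquiv.mul_apply, hh _ h1]
    exact g.apply_symm_apply x
  have hr : ∀ h : GQ, (∀ x ∈ T', h x = x) → ∀ g, FF ι α N (g * h) = FF ι α N g := by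
    intro h hh g
    have h1 := hinv (g * h * g⁻¹) (fun x hx => hconj g h hh x (hT hx)) g
    rwa [inv_mul_cancel_right] at h1
  have hfix : ∀ h : GQ, (∀ x ∈ T', h x = x) → ∀ σ : K →+* Qb,
      odd N (act h⁻¹ σ) = odd N σ := by
    intro h hh
    have h1 := hα.rigid (fun σ => odd N (act h⁻¹ σ) - odd N σ) ?_ ?_
    · intro σ
      have := h1 σ
      omega
    · intro σ
      change odd N (act h⁻¹ (cj σ)) - odd N (cj σ) = _
      rw [act_cj, odd_cj, odd_cj]
      ring
    · intro g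
      have h2 : ∑ σ : K →+* Qb, (odd N (act h⁻¹ σ) : ℝ) * Real.log ‖ι (g (σ α))‖ =
          2 * FF ι α N (g * h) := by
        rw [← two_FF hα.unitary]
        refine Fintype.sum_equiv ⟨act h⁻¹, act h, act_act_inv h, act_inv_act h⟩ _ _ fun σ => ?_
        change _ = (odd N (act h⁻¹ σ) : ℝ) * Real.log ‖ι (g ((act h (act h⁻¹ σ)) α))‖
        rw [act_act_inv]
      have h3 := two_FF (ι := ι) hα.unitary N g
      rw [hr h hh g] at h2
      have h4 : ∀ σ : K →+* Qb, ((odd N (act h⁻¹ σ) - odd N σ : ℤ) : ℝ) *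
          Real.log ‖ι (g (σ α))‖ = (odd N (act h⁻¹ σ) : ℝ) * Real.log ‖ι (g (σ α))‖ -
            (odd N σ : ℝ) * Real.log ‖ι (g (σ α))‖ := by
        intro σ
        push_cast
        ring
      rw [Finset.sum_congr rfl fun σ _ => h4 σ, Finset.sum_sub_distrib, h2, h3, sub_self]
  refine zero_of_const (hfree σ) hd 1 fun b hb => ?_
  rw [act_one, act_one]
  obtain ⟨h, hh, hhb⟩ := orbit σ T' b hb
  have h1 : ∀ {h : GQ}, h ∈ SS σ T' → ∃ k : GQ, (∀ x ∈ T', k x = x) ∧ act h σ = act k σ := by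
    intro h hh
    induction hh using Subgroup.closure_induction'' with
    | mem h hh =>
      rcases hh with hh | hh
      · exact ⟨1, fun x _ => rfl, hh⟩
      · exact ⟨h, hh, rfl⟩
    | inv_mem h hh =>
      rcases hh with hh | hh
      · refine ⟨1, fun x _ => rfl, ?_⟩
        conv_lhs => rw [← (show act h σ = σ from hh)]
        rw [act_inv_act, act_one]
      · refine ⟨h⁻¹, fun x hx => ?_, rfl⟩
        have h2 := hh x hx
        conv_lhs => rw [← h2]
        exact h.symm_apply_apply x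
    | one => exact ⟨1, fun x _ => rfl, rfl⟩
    | mul h k _ _ h1 h2 =>
      obtain ⟨h', hh', h1⟩ := h1
      obtain ⟨k', hk', h2⟩ := h2
      refine ⟨h * k' * h⁻¹ * h', fun x hx => ?_, ?_⟩
      · rw [AlgEquiv.mul_apply, hh' x hx]
        exact hconj h k' hk' x hx
      · rw [act_mul, h2, act_mul (h * k' * h⁻¹) h', ← h1, ← act_mul, ← act_mul,
          inv_mul_cancel_right]
  obtain ⟨k, hk, hkσ⟩ := h1 hh
  have h2 := hfix k⁻¹ (fun x hx => by
    have h3 := hk x hx
    conv_lhs => rw [← h3]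
    exact k.symm_apply_apply x) σ
  rw [inv_inv, ← hkσ, hhb] at h2
  exact h2

/-- **One block.** -/
theorem independent_zero {T : IntermediateField ℚ Qb} {d : ℕ}
    (hα : IsIndependent p ι α T d) {N : (K →+* Qb) → ℕ} (hd : ∑ σ, N σ ≤ d)
    (hinv : ∀ h : GQ, (∀ x ∈ T, h x = x) → ∀ g, FF ι α N (h * g) = FF ι α N g)
    (σ : K →+* Qb) : odd N σ = 0 := by
  rcases hα with ⟨a, ha, hfree⟩ | ⟨hr, T', hn, hT, hfree⟩
  · exact heightOne_zero ha hfree hd hinv σ
  · exact rigid_zero hr hT hfree hd hinv σ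

theorem IsIndependent.unitary {T : IntermediateField ℚ Qb} {d : ℕ}
    (hα : IsIndependent p ι α T d) (φ : K →+* ℂ) : ‖φ α‖ = 1 := by
  rcases hα with ⟨a, ha, -⟩ | ⟨hr, -⟩
  · exact ha.unitary φ
  · exact hr.unitary φ

end conj

variable {r : ℕ} {K : Fin r → Type} [∀ i, Field (K i)] [∀ i, NumberField (K i)]
  [∀ i, IsCMField (K i)]

/-- the conjugate of a pair (index, embedding) -/
def bar {A : Type*} [Field A] (x : Σ i, (K i →+* A)) : Σ i, (K i →+* A) := ⟨x.1, cj x.2⟩

theorem bar_bar {A : Type*} [Field A] (x : Σ i, (K i →+* A)) : bar (bar x) = x := by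
  obtain ⟨i, σ⟩ := x
  unfold bar
  rw [cj_cj]

variable {p : ℕ} [Fact p.Prime] {ι : Qb →+* PadicAlgCl p} {α : ∀ i, K i}

/-- **Relations are trivial**, with an integral power and a rational factor. -/
theorem balanced_rat {N : (Σ i, (K i →+* Qb)) → ℕ} {w : Fin r → ℕ} {W : ℤ} {β : Qb} {x₀ : ℚ}
    (hx₀ : x₀ ≠ 0) (hβ0 : β ≠ 0)
    (hrel : ∏ x : Σ i, (K i →+* Qb), (x.2 (α x.1)) ^ (w x.1 * N x) = β ^ W * (x₀ : Qb))
    (hw : ∀ i, 0 < w i) {L : IntermediateField ℚ Qb} {Q : ℚ[X]}
    (hL : SlopesFixed p ι L Q) (hβ : aeval β Q = 0) {S : Fin r → IntermediateField ℚ Qb}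
    (hS : ∀ i, IsSlopeField p ι (S i) (α i)) {d : Fin r → ℕ}
    (hind : ∀ i, IsIndependent p ι (α i) (tower S L i) (d i))
    (hd : ∀ i, ∑ σ : K i →+* Qb, N ⟨i, σ⟩ ≤ d i)
    (x : Σ i, (K i →+* Qb)) : N x = N (bar x) := by
  classical
  let NN : ∀ i, (K i →+* Qb) → ℕ := fun i σ => N ⟨i, σ⟩
  have hsum : ∀ g : GQ, ∑ i, (w i : ℝ) * FF ι (α i) (NN i) g =
      W * Real.log ‖ι (g β)‖ + Real.log ‖ι (x₀ : Qb)‖ := by
    intro g
    have h1 := congrArg (fun z => Real.log ‖ι (g z)‖) hrel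
    simp only [map_prod, map_pow, norm_prod, norm_pow, map_mul, map_zpow₀, norm_mul, norm_zpow,
      map_ratCast] at h1
    rw [Real.log_mul, Real.log_zpow, Real.log_prod] at h1
    rotate_left
    · intro x _
      exact pow_ne_zero _ (norm_pos' (hind x.1).unitary (act g x.2)).ne'
    · refine zpow_ne_zero _ ?_
      rw [norm_ne_zero_iff, ne_eq, map_eq_zero, map_eq_zero]
      exact hβ0
    · rw [norm_ne_zero_iff]
      exact Rat.cast_ne_zero.2 hx₀
    rw [map_ratCast, ← h1, Fintype.sum_sigma]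
    refine Finset.sum_congr rfl fun i _ => ?_
    unfold FF
    rw [Finset.mul_sum]
    refine Finset.sum_congr rfl fun σ _ => ?_
    rw [Real.log_pow]
    push_cast
    ring
  have key : ∀ i, ∀ σ, odd (NN i) σ = 0 := by
    intro i
    induction i using WellFoundedGT.induction with
    | _ i ih =>
    refine independent_zero (hind i) (hd i) ?_
    intro h hh g
    have hLt : L ≤ tower S L i := le_sup_left
    have hgβ : aeval (g β) Q = 0 := by
      rw [Polynomial.aeval_algHom_apply g β Q, hβ, map_zero]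
    have h1 := hsum g
    have h2 := hsum (h * g)
    have h3 : ‖ι ((h * g) β)‖ = ‖ι (g β)‖ :=
      hL h (fun x hx => hh x (hLt hx)) (g β) hgβ
    rw [h3, ← h1, ← sub_eq_zero, ← Finset.sum_sub_distrib] at h2
    rw [Finset.sum_eq_single i] at h2
    · have h4 : (w i : ℝ) ≠ 0 := Nat.cast_ne_zero.2 (hw i).ne'
      have h5 : (w i : ℝ) * (FF ι (α i) (NN i) (h * g) - FF ι (α i) (NN i) g) = 0 := by
        rw [← h2]
        ring
      have h6 := (mul_eq_zero.1 h5).resolve_left h4
      linarith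
    · intro j _ hji
      rcases lt_or_gt_of_ne hji with hlt | hlt
      · have h4 : S j ≤ tower S L i :=
          le_sup_of_le_right (le_iSup (fun j : {j : Fin r // j < i} => S j.1) ⟨j, hlt⟩)
        rw [FF_slope (hS j) (fun x hx => hh x (h4 hx)), sub_self]
      · rw [FF_zero (hind j).unitary (ih j hlt), FF_zero (hind j).unitary (ih j hlt), sub_self]
    · intro h0
      exact absurd (Finset.mem_univ i) h0
  obtain ⟨i, σ⟩ := x
  have h1 := key i σ
  unfold odd at h1
  change N ⟨i, σ⟩ = N ⟨i, cj σ⟩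
  change (N ⟨i, σ⟩ : ℤ) - N ⟨i, cj σ⟩ = 0 at h1
  omega

/-- **Relations are trivial.** -/
theorem balanced {N : (Σ i, (K i →+* Qb)) → ℕ} {w : Fin r → ℕ} {W : ℕ} {β : Qb}
    (hrel : ∏ x : Σ i, (K i →+* Qb), (x.2 (α x.1)) ^ (w x.1 * N x) = β ^ W)
    (hw : ∀ i, 0 < w i) {L : IntermediateField ℚ Qb} {Q : ℚ[X]}
    (hL : SlopesFixed p ι L Q) (hβ : aeval β Q = 0) {S : Fin r → IntermediateField ℚ Qb}
    (hS : ∀ i, IsSlopeField p ι (S i) (α i)) {d : Fin r → ℕ}
    (hind : ∀ i, IsIndependent p ι (α i) (tower S L i) (d i))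
    (hd : ∀ i, ∑ σ : K i →+* Qb, N ⟨i, σ⟩ ≤ d i)
    (x : Σ i, (K i →+* Qb)) : N x = N (bar x) := by
  classical
  rcases Nat.eq_zero_or_pos W with h0 | h0
  · have h1 : SlopesFixed p ι L (Polynomial.X - 1) := by
      intro h _ β hβ
      have h2 : β = 1 := by
        rw [map_sub, aeval_X, map_one, sub_eq_zero] at hβ
        exact hβ
      rw [h2, map_one]
    refine balanced_rat (β := 1) (W := 0) (x₀ := 1) one_ne_zero one_ne_zero ?_ hw h1 ?_ hS hind
      hd x
    · rw [hrel, h0]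
      simp
    · simp
  · have hβ0 : β ≠ 0 := by
      rintro rfl
      rw [zero_pow h0.ne'] at hrel
      obtain ⟨x, _, hx⟩ := Finset.prod_eq_zero_iff.1 hrel
      refine pow_ne_zero _ ?_ hx
      rw [ne_eq, map_eq_zero]
      exact alpha_ne (hind x.1).unitary
    refine balanced_rat (β := β) (W := W) (x₀ := 1) one_ne_zero hβ0 ?_ hw hL hβ hS hind hd x
    rw [hrel]
    simp

end

end Pool.Agent.TH121.KT
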